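import Pool.Agent.Helper68.LQ.Z4

/-!
Convexity between the line and a zero-free half-plane, general form; inputs of the linear law.
-/

set_option autoImplicit false
set_option maxHeartbeats 4000000

open Complex Filter Topology Set Metric
open Pool.Agent.H306R2 (Zt)
open Pool.Agent.Helper85.LG (zeta_two_sided)
open Pool.Agent.Helper75.JE Pool.Agent.Helper75.LQ Pool.Agent.Helper68.JE

namespace Pool.Agent.Helper68.LQ

/-- convexity: exponent `A` on the line, `0` right of `1/2 + B` -/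
theorem conv_gen {A B : ℝ} (hA0 : 0 ≤ A) (hA1 : A ≤ 1 / 2) (hB0 : 0 < B) (hB1 : B ≤ 1) (hU : UpA A)
    (hF : ∀ ε > 0, Few (1 / 2 + (B + ε))) {ε : ℝ} (hε : 0 < ε) :
    ∃ T : ℝ, 4 ≤ T ∧ ∀ s : ℂ, 1 / 2 ≤ s.re → s.re ≤ 11 → T ≤ s.im →
      ‖riemannZeta s‖ ≤ s.im ^ (max 0 (A - A * (s.re - 1 / 2) / B) + ε) := by
  set δ : ℝ := min (ε * B / 8) B with hδ
  have hδ0 : 0 < δ := lt_min (by positivity) hB0
  have hδ1 : δ ≤ B := min_le_right _ _
  have hδ2 : δ ≤ ε * B / 8 := min_le_left _ _
  clear_value δ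
  -- the upper bound to the right, with `re ≤ 11`
  obtain ⟨T1, hT1⟩ : ∃ T1 : ℝ, ∀ s : ℂ, 1 / 2 + B + δ ≤ s.re → s.re ≤ 11 → T1 ≤ s.im →
      ‖riemannZeta s‖ ≤ s.im ^ (ε / 8) := by
    obtain ⟨T1, hT1⟩ := st_Z3 (1 / 2 + B) (by linarith)
      (fun e he => by have := hF e he; rwa [← add_assoc] at this) (1 / 2 + B + δ) (by linarith)
      (ε / 8) (by positivity)
    obtain ⟨B2, hB21, hB2⟩ := zeta_two_sided (σ := 2) (by norm_num)
    obtain ⟨T2, hT21, hT2⟩ := big_rpow B2 (show 0 < ε / 8 by positivity)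
    refine ⟨max T1 T2, fun s h1 h2 h3 => ?_⟩
    rcases le_total s.re 10 with h4 | h4
    · exact (hT1 s h1 h4 ((le_max_left _ _).trans h3)).2
    · exact (hB2 s (by linarith)).1.trans (hT2 _ ((le_max_right _ _).trans h3))
  obtain ⟨C0, hC0⟩ := hU (ε / 8) (by positivity)
  set C : ℝ := |C0| with hC
  have hC' : ∀ t : ℝ, 1 ≤ t → ‖riemannZeta (1 / 2 + t * I)‖ ≤ C * t ^ (A + ε / 8) := fun t ht =>
    (hC0 t ht).trans (mul_le_mul_of_nonneg_right (le_abs_self _) (by positivity))
  have hCn : 0 ≤ C := abs_nonneg _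
  clear_value C
  set r : ℝ := (B + δ) / 2 with hr
  have hr0 : 0 < r := by rw [hr]; positivity
  have hr1 : r ≤ 1 := by rw [hr]; linarith
  set μ : ℝ := A / B with hμ
  have hμ0 : 0 ≤ μ := by positivity
  have hμB : μ * B = A := by rw [hμ]; field_simp
  have hμδ : μ * δ ≤ ε / 16 := by
    have : μ * δ ≤ μ * (ε * B / 8) := by gcongr
    nlinarith
  set c1 : ℝ := 2 ^ (A + ε / 8) with hc1
  have hc11 : 1 ≤ c1 := Real.one_le_rpow (by norm_num) (by positivity)
  set H : ℝ := 40 / ε + 1 with hH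
  have hH1 : 1 ≤ H := by
    rw [hH]
    have : 0 < 40 / ε := by positivity
    linarith
  obtain ⟨T2, hT21, hT2⟩ := big_rpow ((C + 1) * c1) (show 0 < ε / 2 by positivity)
  refine ⟨max (max (T1 + H) T2) (2 * H + 4), ?_, fun s hs1 hs2 hsT => ?_⟩
  · refine le_trans ?_ (le_max_right _ _)
    linarith
  set t : ℝ := s.im with ht
  have h3 : 2 * H + 4 ≤ t := (le_max_right _ _).trans hsT
  have hTt1 : T1 + H ≤ t := ((le_max_left _ _).trans (le_max_left _ _)).trans hsT
  have hTt2 : T2 ≤ t := ((le_max_right _ _).trans (le_max_left _ _)).trans hsT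
  have ht4 : 4 ≤ t := by linarith
  have ht0 : 0 < t := by linarith
  -- to the right
  rcases le_total (1 / 2 + B + δ) s.re with hright | hleft
  · refine (hT1 s hright hs2 (by linarith)).trans ?_
    apply Real.rpow_le_rpow_of_exponent_le (by linarith)
    have := le_max_left 0 (A - A * (s.re - 1 / 2) / B)
    linarith
  have hlog : 1 ≤ Real.log t := by
    rw [Real.le_log_iff_exp_le ht0]
    have := Real.exp_one_lt_d9
    linarith
  set Lg : ℝ := Real.log t with hLg
  set V : ℝ := (C + 1) * c1 * Real.exp ((A + ε / 4) * Lg) with hV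
  have hV0 : 0 < V := by rw [hV]; positivity
  have hyy : ∀ y : ℝ, |y - t| ≤ H → 1 ≤ y ∧ y ≤ 2 * t ∧ T1 ≤ y := by
    intro y hy
    have hy' := abs_le.1 hy
    exact ⟨by linarith [hy'.1], by linarith [hy'.2], by linarith [hy'.1]⟩
  have hpow : ∀ y a : ℝ, |y - t| ≤ H → 0 ≤ a → a ≤ A + ε / 8 → y ^ a ≤ c1 * Real.exp (a * Lg) := by
    intro y a hy ha0 ha
    obtain ⟨k1, k2, k3⟩ := hyy y hy
    calc y ^ a ≤ (2 * t) ^ a := Real.rpow_le_rpow (by linarith) k2 ha0
      _ = 2 ^ a * t ^ a := Real.mul_rpow (by norm_num) ht0.le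
      _ ≤ c1 * t ^ a := by
          have := Real.rpow_le_rpow_of_exponent_le (x := 2) (by norm_num) ha
          exact mul_le_mul_of_nonneg_right this (by positivity)
      _ = _ := by rw [Real.rpow_def_of_pos ht0, mul_comm (Real.log t) a]
  set F : ℂ → ℂ := fun w => riemannZeta (1 / 2 + r + w) * cexp ((μ * Lg : ℝ) * (r + w - t * I)) with hFd
  have hFn : ∀ w : ℂ, ‖F w‖ = ‖riemannZeta (1 / 2 + r + w)‖ * Real.exp (μ * Lg * (r + w.re)) := by
    intro w
    rw [hFd]
    simp only
    rw [norm_mul, Complex.norm_exp]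
    congr 2
    rw [Complex.re_ofReal_mul]
    simp
  have hres := gauss_rect (F := F) (r := r) (H := H) (t := t) (V := V)
    (K := 5 * Lg) hr0 hH1 ?_ hV0.le (by positivity) ?_ ?_ (s - (1 / 2 + r)) ?_ ?_
  · rw [hFn] at hres
    have e : (1 / 2 + (r : ℂ) + (s - (1 / 2 + r)) : ℂ) = s := by ring
    have e2 : r + (s - (1 / 2 + (r : ℂ)) : ℂ).re = s.re - 1 / 2 := by
      simp
      ring
    rw [e, e2] at hres
    have hKK : 5 * Lg / H ^ 2 * (r ^ 2 + 1) ≤ ε / 4 * Lg := by
      have h7 : 40 / ε ≤ H ^ 2 := by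
        rw [hH]
        have : 0 < 40 / ε := by positivity
        nlinarith
      rw [div_le_iff₀ hε] at h7
      rw [div_mul_eq_mul_div, div_le_iff₀ (by positivity)]
      have h8 : r ^ 2 + 1 ≤ 2 := by nlinarith
      have h9 : 5 * Lg * (r ^ 2 + 1) ≤ 5 * Lg * 2 := by gcongr
      nlinarith
    have hres2 : ‖riemannZeta s‖ * Real.exp (μ * Lg * (s.re - 1 / 2)) ≤
        (C + 1) * c1 * Real.exp ((A + ε / 2) * Lg) := by
      refine hres.trans ?_
      calc V * Real.exp (5 * Lg / H ^ 2 * (r ^ 2 + 1)) ≤ V * Real.exp (ε / 4 * Lg) := by gcongr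
        _ = (C + 1) * c1 * (Real.exp ((A + ε / 4) * Lg) * Real.exp (ε / 4 * Lg)) := by rw [hV]; ring
        _ = _ := by rw [← Real.exp_add]; congr 2; ring
    have hB : (C + 1) * c1 ≤ Real.exp (ε / 2 * Lg) := by
      have := hT2 t hTt2
      rwa [Real.rpow_def_of_pos ht0, mul_comm (Real.log t)] at this
    have hfin : ‖riemannZeta s‖ * Real.exp (μ * Lg * (s.re - 1 / 2)) ≤
        t ^ (A - A * (s.re - 1 / 2) / B + ε) * Real.exp (μ * Lg * (s.re - 1 / 2)) := by
      refine hres2.trans ?_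
      rw [Real.rpow_def_of_pos ht0, ← Real.exp_add]
      calc (C + 1) * c1 * Real.exp ((A + ε / 2) * Lg)
          ≤ Real.exp (ε / 2 * Lg) * Real.exp ((A + ε / 2) * Lg) := by gcongr
        _ = _ := by
            rw [← Real.exp_add]
            congr 1
            rw [hμ]
            ring
    refine (le_of_mul_le_mul_right hfin (Real.exp_pos _)).trans ?_
    apply Real.rpow_le_rpow_of_exponent_le (by linarith)
    have := le_max_right 0 (A - A * (s.re - 1 / 2) / B)
    linarith
  · intro w hw1 hw2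
    have hw3 := (hyy w.im hw2).1
    have h4 : DifferentiableAt ℂ riemannZeta (1 / 2 + r + w) := by
      apply differentiableAt_riemannZeta
      intro h0
      have := congrArg im h0
      simp at this
      linarith
    have h5 : DifferentiableAt ℂ (fun w : ℂ => riemannZeta (1 / 2 + r + w)) w :=
      DifferentiableAt.comp (f := fun w : ℂ => 1 / 2 + (r : ℂ) + w) w h4 (by fun_prop)
    rw [hFd]
    exact h5.mul (by fun_prop)
  · intro w hw1 hw2
    obtain ⟨k1, k2, k3⟩ := hyy w.im hw2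
    rw [hFn]
    rcases le_total 0 w.re with h4 | h4
    · rw [abs_of_nonneg h4] at hw1
      have hre : (1 / 2 + r + w : ℂ).re = 1 / 2 + B + δ := by
        simp [hw1, hr]; ring
      have him : (1 / 2 + r + w : ℂ).im = w.im := by simp
      have h5 := hT1 (1 / 2 + r + w) hre.ge (by rw [hre]; linarith) (by rw [him]; exact k3)
      rw [him] at h5
      have h6 := hpow w.im (ε / 8) hw2 (by positivity) (by linarith)
      calc ‖riemannZeta (1 / 2 + r + w)‖ * Real.exp (μ * Lg * (r + w.re))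
          ≤ (c1 * Real.exp (ε / 8 * Lg)) * Real.exp (μ * Lg * (r + w.re)) := by
            gcongr
            exact h5.trans h6
        _ = c1 * Real.exp (ε / 8 * Lg + μ * Lg * (r + r)) := by rw [hw1, mul_assoc, ← Real.exp_add]
        _ ≤ c1 * Real.exp ((A + ε / 4) * Lg) := by
            have : ε / 8 * Lg + μ * Lg * (r + r) ≤ (A + ε / 4) * Lg := by
              have e5 : μ * Lg * (r + r) = (μ * B + μ * δ) * Lg := by rw [hr]; ring
              rw [e5, hμB]
              nlinarith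
            gcongr
        _ ≤ V := by
            rw [hV]
            have : c1 ≤ (C + 1) * c1 := by nlinarith
            gcongr
    · rw [abs_of_nonpos h4] at hw1
      have hre : w.re = -r := by linarith
      have e : (1 / 2 + r + w : ℂ) = 1 / 2 + w.im * I := by
        apply Complex.ext
        · simp [hre]
        · simp
      rw [e, hre, add_neg_cancel, mul_zero, Real.exp_zero, mul_one]
      have h6 := hpow w.im (A + ε / 8) hw2 (by positivity) le_rfl
      calc ‖riemannZeta (1 / 2 + w.im * I)‖ ≤ C * w.im ^ (A + ε / 8) := hC' w.im k1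
        _ ≤ C * (c1 * Real.exp ((A + ε / 8) * Lg)) := by gcongr
        _ ≤ (C + 1) * (c1 * Real.exp ((A + ε / 4) * Lg)) := by
            gcongr
            · linarith
            · linarith
        _ = V := by rw [hV]; ring
  · intro w hw1 hw2
    obtain ⟨k1, k2, k3⟩ := hyy w.im hw2.le
    rw [hFn]
    have hwre := abs_le.1 hw1
    have hre : (1 / 2 + r + w : ℂ).re = 1 / 2 + r + w.re := by simp
    have him : (1 / 2 + r + w : ℂ).im = w.im := by simp
    have h5 := zeta_crude (z := 1 / 2 + r + w) ht4 (by rw [hre]; linarith) (by rw [hre]; linarith)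
      (by rw [him]; exact k1) (by rw [him]; exact k2)
    have h6 : Real.exp (μ * Lg * (r + w.re)) ≤ V := by
      calc Real.exp (μ * Lg * (r + w.re)) ≤ Real.exp ((A + ε / 4) * Lg) := by
            apply Real.exp_le_exp.2
            have h7 : μ * Lg * (r + w.re) ≤ μ * Lg * (r + r) := by
              have := hwre.2
              gcongr
            have h8 : μ * Lg * (r + r) ≤ (A + ε / 4) * Lg := by
              have e5 : μ * Lg * (r + r) = (μ * B + μ * δ) * Lg := by rw [hr]; ring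
              rw [e5, hμB]
              nlinarith
            linarith
        _ = 1 * 1 * Real.exp ((A + ε / 4) * Lg) := by ring
        _ ≤ V := by
            rw [hV]
            gcongr
            linarith
    calc ‖riemannZeta (1 / 2 + r + w)‖ * Real.exp (μ * Lg * (r + w.re))
        ≤ Real.exp (5 * Lg) * V := by gcongr
      _ = _ := mul_comm _ _
  · have : (s - (1 / 2 + (r : ℂ)) : ℂ).re = s.re - (1 / 2 + r) := by simp
    rw [this, abs_le]
    constructor
    · linarith
    · rw [hr]; linarith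
  · have : (s - (1 / 2 + (r : ℂ)) : ℂ).im = t := by simp [ht]
    rw [this]
    simp

/-- The upper bound near the height `x`, in the normalisation of the linear law. -/
theorem zin_up {A d : ℝ} (hA0 : 0 < A) (hA1 : A ≤ 1 / 2) (hd0 : 0 ≤ d) (hd1 : 2 * A * (1 + d) ≤ 1) (hU : UpA A)
    (hF : ∀ ε > 0, Few (1 / 2 + (2 * A * (1 + d) + ε))) {ε R : ℝ} (hε : 0 < ε) :
    ∃ X : ℝ, 4 ≤ X ∧ ∀ x : ℝ, X ≤ x → ∀ s y : ℝ, |s| ≤ R → 0 ≤ y → y ≤ 10 →
      ‖riemannZeta (1 / 2 + y + (x + s) * I)‖ ≤
        Real.exp (Real.log x * (max 0 (A - y / (2 * (1 + d))) + ε)) := by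
  obtain ⟨T, hT4, hT⟩ := conv_gen hA0.le hA1 (B := 2 * A * (1 + d)) (by positivity) hd1 hU hF
    (show 0 < ε / 2 by positivity)
  obtain ⟨T2, hT21, hT2⟩ := big_rpow (2 ^ (1 + ε)) (show 0 < ε / 2 by positivity)
  refine ⟨max (max (T + |R|) T2) (4 + |R|), ?_, fun x hx s y hs hy0 hy1 => ?_⟩
  · refine le_trans ?_ (le_max_right _ _)
    linarith [abs_nonneg R]
  have hx1 : T + |R| ≤ x := ((le_max_left _ _).trans (le_max_left _ _)).trans hx
  have hx2 : T2 ≤ x := ((le_max_right _ _).trans (le_max_left _ _)).trans hx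
  have hx3 : 4 + |R| ≤ x := (le_max_right _ _).trans hx
  have hR := le_abs_self R
  have hRn := abs_nonneg R
  have hs' := abs_le.1 hs
  have hx0 : 0 < x := by linarith
  have hre : (1 / 2 + (y : ℂ) + (x + s) * I).re = 1 / 2 + y := by simp
  have him : (1 / 2 + (y : ℂ) + (x + s) * I).im = x + s := by simp
  have h1 := hT (1 / 2 + (y : ℂ) + (x + s) * I) (by rw [hre]; linarith) (by rw [hre]; linarith)
    (by rw [him]; linarith [hs'.1])
  rw [hre, him] at h1
  refine h1.trans ?_
  have e1 : A - A * (1 / 2 + y - 1 / 2) / (2 * A * (1 + d)) = A - y / (2 * (1 + d)) := by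
    have : (1 + d) ≠ 0 := by positivity
    field_simp
    ring
  rw [e1]
  set E : ℝ := max 0 (A - y / (2 * (1 + d))) with hE
  have hE0 : 0 ≤ E := le_max_left _ _
  have hE1 : E ≤ 1 := by
    refine max_le zero_le_one ?_
    have : 0 ≤ y / (2 * (1 + d)) := by positivity
    linarith
  have hxs : x + s ≤ 2 * x := by linarith [hs'.2]
  have hxs0 : 0 < x + s := by linarith [hs'.1]
  calc (x + s) ^ (E + ε / 2) ≤ (2 * x) ^ (E + ε / 2) :=
        Real.rpow_le_rpow hxs0.le hxs (by positivity)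
    _ = 2 ^ (E + ε / 2) * x ^ (E + ε / 2) := Real.mul_rpow (by norm_num) hx0.le
    _ ≤ 2 ^ (1 + ε) * x ^ (E + ε / 2) := by
        have : (2 : ℝ) ^ (E + ε / 2) ≤ 2 ^ (1 + ε) :=
          Real.rpow_le_rpow_of_exponent_le (by norm_num) (by linarith)
        gcongr
    _ ≤ x ^ (ε / 2) * x ^ (E + ε / 2) := by
        have := hT2 x hx2
        gcongr
    _ = Real.exp (Real.log x * (E + ε)) := by
        rw [← Real.rpow_add hx0, Real.rpow_def_of_pos hx0]
        congr 1
        ring

/-- The lower bound right of the zeros, near the height `x`. -/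
theorem zin_lo {B : ℝ} (hB0 : 0 ≤ B) (hF : ∀ ε > 0, Few (1 / 2 + (B + ε))) {ε η R : ℝ} (hε : 0 < ε)
    (hη : 0 < η) :
    ∃ X : ℝ, 4 ≤ X ∧ ∀ x : ℝ, X ≤ x → ∀ s y : ℝ, |s| ≤ R → B + η ≤ y → y ≤ 9 →
      Real.exp (-(Real.log x * ε)) ≤ ‖riemannZeta (1 / 2 + y + (x + s) * I)‖ := by
  obtain ⟨T, hT⟩ := st_Z3 (1 / 2 + B) (by linarith)
    (fun e he => by have := hF e he; rwa [← add_assoc] at this) (1 / 2 + B + η) (by linarith)
    (ε / 2) (by positivity)
  refine ⟨max (T + |R|) (4 + |R|), ?_, fun x hx s y hs hy0 hy1 => ?_⟩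
  · refine le_trans ?_ (le_max_right _ _)
    linarith [abs_nonneg R]
  have hx1 : T + |R| ≤ x := (le_max_left _ _).trans hx
  have hx3 : 4 + |R| ≤ x := (le_max_right _ _).trans hx
  have hR := le_abs_self R
  have hRn := abs_nonneg R
  have hs' := abs_le.1 hs
  have hx0 : 0 < x := by linarith
  have hre : (1 / 2 + (y : ℂ) + (x + s) * I).re = 1 / 2 + y := by simp
  have him : (1 / 2 + (y : ℂ) + (x + s) * I).im = x + s := by simp
  have h1 := (hT (1 / 2 + (y : ℂ) + (x + s) * I) (by rw [hre]; linarith) (by rw [hre]; linarith)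
    (by rw [him]; linarith [hs'.1])).1
  rw [him] at h1
  refine le_trans ?_ h1
  have hxs0 : 0 < x + s := by linarith [hs'.1]
  have hxs : x + s ≤ x ^ 2 := by nlinarith [hs'.2]
  have hl : Real.log (x + s) ≤ 2 * Real.log x := by
    have := Real.log_le_log hxs0 hxs
    rw [Real.log_pow] at this
    push_cast at this
    exact this
  rw [Real.rpow_def_of_pos hxs0]
  apply Real.exp_le_exp.2
  nlinarith

end Pool.Agent.Helper68.LQ
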