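import Pool.Agent.Helper75.LQ.Yst
import Pool.Agent.Helper68.LQ.ZL

/-!
Local growth and convexity in windows: `St_Y1`, `St_Y3`.
-/

set_option autoImplicit false
set_option maxHeartbeats 4000000

open Complex Filter Topology Set Metric
open Pool.Agent.H306R2 (Zt)
open Pool.Agent.Helper85.LG (zeta_two_sided)
open Pool.Agent.Helper75.JE Pool.Agent.Helper75.LQ Pool.Agent.Helper68.JE

namespace Pool.Agent.Helper68.LQ

/-- crude bound for the zeta function -/
lemma zeta_crude2 {z : ℂ} {x : ℝ} (hx : 6 ≤ x) (h1 : 1 / 2 ≤ z.re) (h2 : z.re ≤ 5) (h3 : 1 ≤ z.im)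
    (h4 : z.im ≤ 2 * x) : ‖riemannZeta z‖ ≤ Real.exp (5 * Real.log x) := by
  have ht0 : 0 < x := by linarith
  have hne : z ≠ 1 := by
    intro h0
    have := congrArg im h0
    simp at this
    linarith
  have h4' : ‖riemannZeta z‖ ≤ ‖Zt z‖ := by
    rw [← Pool.Agent.H306R2.zeta_eq_pos (by linarith) hne, norm_mul]
    apply le_mul_of_one_le_left (norm_nonneg _)
    have h5 := Complex.abs_im_le_norm (z - 1 : ℂ)
    have h6 : (z - 1 : ℂ).im = z.im := by simp
    rw [h6] at h5
    have h7 := le_abs_self z.im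
    linarith
  have h5 := Pool.Agent.H306R2.Zt_norm_le (s := z) h1
  have h6 : ‖z‖ ≤ 5 + 2 * x := by
    refine (Complex.norm_le_abs_re_add_abs_im _).trans ?_
    rw [abs_of_pos (by linarith : 0 < z.re), abs_of_pos (by linarith : 0 < z.im)]
    linarith
  have h7 : (‖z‖ + 1) ^ 2 ≤ (3 * x) ^ 2 :=
    pow_le_pow_left₀ (by positivity) (by linarith) 2
  have h8 : Real.exp (5 * Real.log x) = x ^ 5 := by
    have : (5 * Real.log x) = ((5 : ℕ) : ℝ) * Real.log x := by norm_num
    rw [this, Real.exp_nat_mul, Real.exp_log ht0]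
  have h9 : 27 * x ^ 2 ≤ x ^ 5 := by
    have : (27 : ℝ) ≤ x ^ 3 := by
      calc (27 : ℝ) ≤ 6 ^ 3 := by norm_num
        _ ≤ x ^ 3 := by gcongr
    calc 27 * x ^ 2 ≤ x ^ 3 * x ^ 2 := by gcongr
      _ = _ := by ring
  rw [h8]
  linarith

theorem st_Y1 : St_Y1 := by
  intro A r η hA0 hA1 hη
  obtain ⟨B, hB1, hB⟩ := zeta_two_sided (σ := 2) (by norm_num)
  obtain ⟨T1, hT11, hT1⟩ := big_rpow B (show 0 < η / 2 by positivity)
  set H : ℝ := 40 / η + 1 with hH
  have hH1 : 1 ≤ H := by
    rw [hH]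
    have : 0 < 40 / η := by positivity
    linarith
  refine ⟨max T1 (|r| + H + 10), fun x hx hline s hs1 hsx => ?_⟩
  have hxT : T1 ≤ x := (le_max_left _ _).trans hx
  have hxr : |r| + H + 10 ≤ x := (le_max_right _ _).trans hx
  have hrr := le_abs_self r
  have hr0 := abs_nonneg r
  have hx1 : 1 ≤ x := hT11.trans hxT
  have hx0 : 0 < x := by linarith
  have hlog : 0 ≤ Real.log x := Real.log_nonneg hx1
  have hBx := hT1 x hxT
  rcases le_total 2 s.re with h2 | h2
  · refine (hB s h2).1.trans (hBx.trans ?_)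
    exact Real.rpow_le_rpow_of_exponent_le hx1 (by linarith)
  have hsx' := abs_le.1 hsx
  set t : ℝ := s.im with ht
  set V : ℝ := x ^ (A + η / 2) with hV
  have hV1 : 1 ≤ V := Real.one_le_rpow hx1 (by positivity)
  have hres := gauss_rect (F := fun w => riemannZeta (5 / 4 + w)) (r := 3 / 4) (H := H) (t := t) (V := V)
    (K := 5 * Real.log x) (by norm_num) hH1 ?_ (by linarith) (by positivity) ?_ ?_ (s - 5 / 4) ?_ ?_
  · have e : (5 / 4 + (s - 5 / 4) : ℂ) = s := by ring
    rw [e] at hres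
    refine hres.trans ?_
    have hKK : 5 * Real.log x / H ^ 2 * ((3 / 4) ^ 2 + 1) ≤ η / 2 * Real.log x := by
      have h7 : 40 / η ≤ H ^ 2 := by
        rw [hH]
        have : 0 < 40 / η := by positivity
        nlinarith
      rw [div_le_iff₀ hη] at h7
      rw [div_mul_eq_mul_div, div_le_iff₀ (by positivity)]
      nlinarith
    calc V * Real.exp (5 * Real.log x / H ^ 2 * ((3 / 4) ^ 2 + 1))
        ≤ V * Real.exp (η / 2 * Real.log x) := by gcongr
      _ = x ^ (A + η) := by
          rw [hV, mul_comm (η / 2), ← Real.rpow_def_of_pos hx0, ← Real.rpow_add hx0]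
          congr 1
          ring
  · intro w hw1 hw2
    have h4 : DifferentiableAt ℂ riemannZeta (5 / 4 + w) := by
      apply differentiableAt_riemannZeta
      intro h0
      have := congrArg im h0
      simp at this
      rw [this] at hw2
      have := (abs_le.1 hw2).1
      linarith
    exact DifferentiableAt.comp (f := fun w : ℂ => 5 / 4 + w) w h4 (by fun_prop)
  · intro w hw1 hw2
    have hw3 := abs_le.1 hw2
    rcases le_total 0 w.re with h4 | h4
    · rw [abs_of_nonneg h4] at hw1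
      refine (hB (5 / 4 + w) (by simp; rw [hw1]; norm_num)).1.trans (hBx.trans ?_)
      exact Real.rpow_le_rpow_of_exponent_le hx1 (by linarith)
    · rw [abs_of_nonpos h4] at hw1
      have e : (5 / 4 + w : ℂ) = 1 / 2 + w.im * I := by
        have hre : w.re = -(3 / 4) := by linarith
        apply Complex.ext
        · simp [hre]; norm_num
        · simp
      rw [e]
      refine (hline w.im ?_).trans (Real.rpow_le_rpow_of_exponent_le hx1 (by linarith))
      refine le_trans ?_ (le_max_right _ _)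
      rw [abs_le]
      constructor <;> linarith
  · intro w hw1 hw2
    have hw3 := abs_le.1 hw2.le
    have hwre := abs_le.1 hw1
    have h5 := zeta_crude2 (z := 5 / 4 + w) (x := x) (by linarith) (by simp; linarith) (by simp; linarith)
      (by simp; linarith) (by simp; linarith)
    calc ‖riemannZeta (5 / 4 + w)‖ ≤ 1 * Real.exp (5 * Real.log x) := by rw [one_mul]; exact h5
      _ ≤ _ := by gcongr
  · have : (s - 5 / 4 : ℂ).re = s.re - 5 / 4 := by simp
    rw [this, abs_le]
    constructor <;> linarith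
  · have : (s - 5 / 4 : ℂ).im = t := by simp [ht]
    rw [this]
    simp

/-- convexity in a window, `B ≤ 2` -/
theorem y_core (h2 : St_Y2) {A B r η : ℝ} (hA0 : 0 ≤ A) (hA1 : A ≤ 1) (hB0 : 0 < B) (hB1 : B ≤ 2)
    (hη : 0 < η) :
    ∃ R : ℝ, ∀ x : ℝ, R ≤ x → LineB A x R → NoZ B x R → ∀ s : ℂ, 1 / 2 ≤ s.re → s.re ≤ 10 →
      |s.im - x| ≤ r → ‖riemannZeta s‖ ≤ x ^ (max 0 (A * (1 - (s.re - 1 / 2) / B)) + η) := by
  set δ : ℝ := min (η * B / 8) B with hδ
  have hδ0 : 0 < δ := lt_min (by positivity) hB0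
  have hδ1 : δ ≤ B := min_le_right _ _
  have hδ2 : δ ≤ η * B / 8 := min_le_left _ _
  have hδ3 : δ ≤ 2 := hδ1.trans hB1
  clear_value δ
  set H : ℝ := 100 / η + 1 with hH
  have hH1 : 1 ≤ H := by
    rw [hH]
    have : 0 < 100 / η := by positivity
    linarith
  -- the right side
  obtain ⟨R1, hR1⟩ := h2 B (|r| + H) (min δ (η / 4)) hB0.le (lt_min hδ0 (by positivity))
  have hright : ∀ x : ℝ, max R1 1 ≤ x → NoZ B x R1 → ∀ s : ℂ, 1 / 2 + B + δ ≤ s.re → s.re ≤ 10 →
      |s.im - x| ≤ |r| + H → ‖riemannZeta s‖ ≤ x ^ (η / 4) := by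
    intro x hx hN s hs1 hs2 hs3
    have h3 := (hR1 x ((le_max_left _ _).trans hx) hN s (by linarith [min_le_left δ (η / 4)]) hs2 hs3).2
    exact h3.trans (Real.rpow_le_rpow_of_exponent_le ((le_max_right _ _).trans hx) (min_le_right _ _))
  set r0 : ℝ := (B + δ) / 2 with hr0
  have hr00 : 0 < r0 := by rw [hr0]; positivity
  have hr01 : r0 ≤ 2 := by rw [hr0]; linarith
  set μ : ℝ := A / B with hμ
  have hμ0 : 0 ≤ μ := by positivity
  have hμB : μ * B = A := by rw [hμ]; field_simp
  have hμδ : μ * δ ≤ η / 8 := by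
    have h3 : μ * δ ≤ μ * (η * B / 8) := by gcongr
    have h4 : μ * (η * B / 8) = A * η / 8 := by rw [← hμB]; ring
    nlinarith
  set R0 : ℝ := max (max R1 1) (|r| + H + 10) with hR0
  refine ⟨R0, fun x hx hline hN s hs1 hs2 hsx => ?_⟩
  have hxR1 : max R1 1 ≤ x := (le_max_left _ _).trans hx
  have hxr : |r| + H + 10 ≤ x := (le_max_right _ _).trans hx
  have hR1R0 : R1 ≤ R0 := (le_max_left _ _).trans (le_max_left _ _)
  have hHR0 : |r| + H + 10 ≤ R0 := le_max_right _ _
  have hrr := le_abs_self r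
  have hr0' := abs_nonneg r
  have hx1 : 1 ≤ x := (le_max_right _ _).trans hxR1
  have hx0 : 0 < x := by linarith
  have hN1 : NoZ B x R1 := fun z hz hz2 => hN z hz (hz2.trans hR1R0)
  have hsx' := abs_le.1 hsx
  have hright' := hright x hxR1 hN1
  have hm0 := le_max_left 0 (A * (1 - (s.re - 1 / 2) / B))
  rcases le_total (1 / 2 + B + δ) s.re with hcase | hleft
  · refine (hright' s hcase hs2 (by linarith)).trans ?_
    apply Real.rpow_le_rpow_of_exponent_le hx1
    linarith
  have hlog : 0 ≤ Real.log x := Real.log_nonneg hx1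
  set t : ℝ := s.im with ht
  set Lg : ℝ := Real.log x with hLg
  set V : ℝ := Real.exp ((A + η / 2) * Lg) with hV
  have hV0 : 0 < V := Real.exp_pos _
  have hwx : ∀ y : ℝ, |y - t| ≤ H → |y - x| ≤ |r| + H ∧ 1 ≤ y ∧ y ≤ 2 * x := by
    intro y hy
    have hy' := abs_le.1 hy
    refine ⟨?_, by linarith [hy'.1], by linarith [hy'.2]⟩
    rw [abs_le]
    constructor <;> linarith [hy'.1, hy'.2]
  set F : ℂ → ℂ := fun w => riemannZeta (1 / 2 + r0 + w) * cexp ((μ * Lg : ℝ) * (r0 + w - t * I)) with hFd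
  have hFn : ∀ w : ℂ, ‖F w‖ = ‖riemannZeta (1 / 2 + r0 + w)‖ * Real.exp (μ * Lg * (r0 + w.re)) := by
    intro w
    rw [hFd]
    simp only
    rw [norm_mul, Complex.norm_exp]
    congr 2
    rw [Complex.re_ofReal_mul]
    simp
  have hexp : ∀ a : ℝ, x ^ a = Real.exp (a * Lg) := fun a => by
    rw [Real.rpow_def_of_pos hx0, mul_comm]
  have hV2 : μ * Lg * (r0 + r0) ≤ (A + η / 8) * Lg := by
    have e5 : μ * Lg * (r0 + r0) = (μ * B + μ * δ) * Lg := by rw [hr0]; ring
    rw [e5, hμB]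
    nlinarith
  have hres := gauss_rect (F := F) (r := r0) (H := H) (t := t) (V := V)
    (K := 5 * Lg) hr00 hH1 ?_ hV0.le (by positivity) ?_ ?_ (s - (1 / 2 + r0)) ?_ ?_
  · rw [hFn] at hres
    have e : (1 / 2 + (r0 : ℂ) + (s - (1 / 2 + r0)) : ℂ) = s := by ring
    have e2 : r0 + (s - (1 / 2 + (r0 : ℂ)) : ℂ).re = s.re - 1 / 2 := by
      simp
      ring
    rw [e, e2] at hres
    have hKK : 5 * Lg / H ^ 2 * (r0 ^ 2 + 1) ≤ η / 4 * Lg := by
      have h7 : 100 / η ≤ H ^ 2 := by
        rw [hH]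
        have : 0 < 100 / η := by positivity
        nlinarith
      rw [div_le_iff₀ hη] at h7
      rw [div_mul_eq_mul_div, div_le_iff₀ (by positivity)]
      have h8 : r0 ^ 2 + 1 ≤ 5 := by nlinarith
      have h9 : 5 * Lg * (r0 ^ 2 + 1) ≤ 5 * Lg * 5 := by gcongr
      nlinarith
    have hfin : ‖riemannZeta s‖ * Real.exp (μ * Lg * (s.re - 1 / 2)) ≤
        Real.exp ((A * (1 - (s.re - 1 / 2) / B) + η) * Lg) * Real.exp (μ * Lg * (s.re - 1 / 2)) := by
      refine hres.trans ?_
      rw [hV, ← Real.exp_add, ← Real.exp_add]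
      apply Real.exp_le_exp.2
      have e6 : A * (1 - (s.re - 1 / 2) / B) = A - μ * (s.re - 1 / 2) := by rw [hμ]; ring
      rw [e6]
      nlinarith
    have h10 := le_of_mul_le_mul_right hfin (Real.exp_pos _)
    rw [← hexp] at h10
    refine h10.trans ?_
    apply Real.rpow_le_rpow_of_exponent_le hx1
    have := le_max_right 0 (A * (1 - (s.re - 1 / 2) / B))
    linarith
  · intro w hw1 hw2
    have hw3 := (hwx w.im hw2).2.1
    have h4 : DifferentiableAt ℂ riemannZeta (1 / 2 + r0 + w) := by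
      apply differentiableAt_riemannZeta
      intro h0
      have := congrArg im h0
      simp at this
      linarith
    have h5 : DifferentiableAt ℂ (fun w : ℂ => riemannZeta (1 / 2 + r0 + w)) w :=
      DifferentiableAt.comp (f := fun w : ℂ => 1 / 2 + (r0 : ℂ) + w) w h4 (by fun_prop)
    rw [hFd]
    exact h5.mul (by fun_prop)
  · intro w hw1 hw2
    obtain ⟨k1, k2, k3⟩ := hwx w.im hw2
    rw [hFn]
    rcases le_total 0 w.re with h4 | h4
    · rw [abs_of_nonneg h4] at hw1
      have hre : (1 / 2 + r0 + w : ℂ).re = 1 / 2 + B + δ := by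
        simp [hw1, hr0]; ring
      have him : (1 / 2 + r0 + w : ℂ).im = w.im := by simp
      have h5 := hright' (1 / 2 + r0 + w) hre.ge (by rw [hre]; linarith) (by rw [him]; exact k1)
      rw [hexp] at h5
      calc ‖riemannZeta (1 / 2 + r0 + w)‖ * Real.exp (μ * Lg * (r0 + w.re))
          ≤ Real.exp (η / 4 * Lg) * Real.exp (μ * Lg * (r0 + w.re)) := by gcongr
        _ = Real.exp (η / 4 * Lg + μ * Lg * (r0 + r0)) := by rw [hw1, ← Real.exp_add]
        _ ≤ V := by
            rw [hV]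
            apply Real.exp_le_exp.2
            nlinarith
    · rw [abs_of_nonpos h4] at hw1
      have hre : w.re = -r0 := by linarith
      have e : (1 / 2 + r0 + w : ℂ) = 1 / 2 + w.im * I := by
        apply Complex.ext
        · simp [hre]
        · simp
      rw [e, hre, add_neg_cancel, mul_zero, Real.exp_zero, mul_one]
      refine (hline w.im (k1.trans (by linarith))).trans ?_
      rw [hexp, hV]
      apply Real.exp_le_exp.2
      nlinarith
  · intro w hw1 hw2
    obtain ⟨k1, k2, k3⟩ := hwx w.im hw2.le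
    rw [hFn]
    have hwre := abs_le.1 hw1
    have hre : (1 / 2 + r0 + w : ℂ).re = 1 / 2 + r0 + w.re := by simp
    have him : (1 / 2 + r0 + w : ℂ).im = w.im := by simp
    have h5 := zeta_crude2 (z := 1 / 2 + r0 + w) (x := x) (by linarith) (by rw [hre]; linarith)
      (by rw [hre]; linarith) (by rw [him]; exact k2) (by rw [him]; exact k3)
    have h6 : Real.exp (μ * Lg * (r0 + w.re)) ≤ V := by
      rw [hV]
      apply Real.exp_le_exp.2
      have h7 : μ * Lg * (r0 + w.re) ≤ μ * Lg * (r0 + r0) := by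
        have := hwre.2
        gcongr
      nlinarith
    calc ‖riemannZeta (1 / 2 + r0 + w)‖ * Real.exp (μ * Lg * (r0 + w.re))
        ≤ Real.exp (5 * Lg) * V := by gcongr
      _ = _ := mul_comm _ _
  · have : (s - (1 / 2 + (r0 : ℂ)) : ℂ).re = s.re - (1 / 2 + r0) := by simp
    rw [this, abs_le]
    constructor
    · linarith
    · rw [hr0]; linarith
  · have : (s - (1 / 2 + (r0 : ℂ)) : ℂ).im = t := by simp [ht]
    rw [this]
    simp

/-- there are no zeros with real part larger than `1` -/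
lemma noZ_of_half {B x R : ℝ} (hB : 1 / 2 ≤ B) : NoZ B x R := by
  intro s hs _
  by_contra h
  push Not at h
  exact riemannZeta_ne_zero_of_one_le_re (by linarith) hs

/-- convexity in a window -/
theorem y_up (h2 : St_Y2) {A B r η : ℝ} (hA0 : 0 ≤ A) (hA1 : A ≤ 1) (hB0 : 0 < B) (hη : 0 < η) :
    ∃ R : ℝ, ∀ x : ℝ, R ≤ x → LineB A x R → NoZ B x R → ∀ s : ℂ, 1 / 2 ≤ s.re → s.re ≤ 10 →
      |s.im - x| ≤ r → ‖riemannZeta s‖ ≤ x ^ (max 0 (A * (1 - (s.re - 1 / 2) / B)) + η) := by
  rcases le_total B 2 with hB | hB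
  · exact y_core h2 hA0 hA1 hB0 hB hη
  · obtain ⟨R, hR⟩ := y_core h2 (A := A) (B := 2) (r := r) hA0 hA1 (by norm_num) le_rfl hη
    refine ⟨max R 1, fun x hx hline _ s hs1 hs2 hsx => ?_⟩
    have h3 := hR x ((le_max_left _ _).trans hx) (fun t ht => hline t (ht.trans (le_max_left _ _)))
      (noZ_of_half (by norm_num)) s hs1 hs2 hsx
    refine h3.trans ?_
    apply Real.rpow_le_rpow_of_exponent_le ((le_max_right _ _).trans hx)
    have h4 : (s.re - 1 / 2) / B ≤ (s.re - 1 / 2) / 2 :=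
      div_le_div_of_nonneg_left (by linarith) (by norm_num) hB
    have h5 : A * (1 - (s.re - 1 / 2) / 2) ≤ A * (1 - (s.re - 1 / 2) / B) := by
      apply mul_le_mul_of_nonneg_left _ hA0
      linarith
    have := max_le_max (le_refl (0 : ℝ)) h5
    linarith

theorem st_Y3 (h2 : St_Y2) : St_Y3 := by
  intro A B r η hA0 hA1 hB0 hη
  obtain ⟨R, hR⟩ := y_up h2 (A := A) (B := B) (r := r) hA0 hA1 hB0 hη
  obtain ⟨B2, hB21, hB2⟩ := zeta_two_sided (σ := 2) (by norm_num)
  obtain ⟨T1, hT11, hT1⟩ := big_rpow B2 hη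
  refine ⟨max R T1, fun x hx hline hN s hs1 hs2 hsx => ?_⟩
  have h4 : 0 ≤ A * (1 - (s.re - 1 / 2) / B) := by
    apply mul_nonneg hA0
    have : (s.re - 1 / 2) / B ≤ 1 := by
      rw [div_le_one hB0]
      linarith
    linarith
  rcases le_total s.re 10 with h3 | h3
  · have h5 := hR x ((le_max_left _ _).trans hx) (fun t ht => hline t (ht.trans (le_max_left _ _)))
      (fun z hz hz2 => hN z hz (hz2.trans (le_max_left _ _))) s hs1 h3 hsx
    rwa [max_eq_right h4] at h5
  · have hxT : T1 ≤ x := (le_max_right _ _).trans hx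
    refine ((hB2 s (by linarith)).1.trans (hT1 x hxT)).trans ?_
    apply Real.rpow_le_rpow_of_exponent_le (hT11.trans hxT)
    linarith

/-- the upper bound for sequences of windows (for `St_Y6`) -/
theorem u_up (h2 : St_Y2) {A d : ℝ} {t : ℕ → ℝ} (hA0 : 0 < A) (hA1 : A ≤ 1 / 2) (hd : 0 ≤ d)
    (ht : Tendsto t atTop atTop) (hU : ULine A t) (hN : UNoZ (2 * A * (1 + d)) t) {ε : ℝ} (hε : 0 < ε)
    (R : ℝ) :
    ∀ᶠ j in atTop, ∀ s y : ℝ, |s| ≤ R → 0 ≤ y → y ≤ 9 →
      ‖riemannZeta (1 / 2 + y + (t j + s) * I)‖ ≤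
        Real.exp (Real.log (t j) * (max 0 (A - y / (2 * (1 + d))) + ε)) := by
  set B : ℝ := 2 * A * (1 + d) with hB
  have hB0 : 0 < B := by rw [hB]; positivity
  -- a small number
  set κ : ℝ := min (1 / 2) (ε / (5 / B + 3)) with hκ
  have h5B : 0 < 5 / B + 3 := by positivity
  have hκ0 : 0 < κ := lt_min (by norm_num) (by positivity)
  have hκ1 : κ ≤ 1 / 2 := min_le_left _ _
  have hκ2 : κ * (5 / B + 3) ≤ ε := by
    have : κ ≤ ε / (5 / B + 3) := min_le_right _ _
    rwa [le_div_iff₀ h5B] at this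
  obtain ⟨R1, hR1⟩ := y_up h2 (A := A + κ) (B := B + κ) (r := R) (η := κ) (by linarith) (by linarith)
    (by linarith) hκ0
  filter_upwards [ht.eventually_ge_atTop (max R1 1), hU κ hκ0 R1, hN κ hκ0 R1] with j hj1 hj2 hj3 s y hs hy0 hy1
  have ht1 : 1 ≤ t j := (le_max_right _ _).trans hj1
  have ht0 : 0 < t j := by linarith
  have hre : (1 / 2 + (y : ℂ) + (t j + s) * I).re = 1 / 2 + y := by simp
  have him : (1 / 2 + (y : ℂ) + (t j + s) * I).im = t j + s := by simp
  have h3 := hR1 (t j) ((le_max_left _ _).trans hj1) hj2 hj3 (1 / 2 + (y : ℂ) + (t j + s) * I)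
    (by rw [hre]; linarith) (by rw [hre]; linarith) (by rw [him]; simpa using hs)
  rw [hre] at h3
  refine h3.trans ?_
  rw [Real.rpow_def_of_pos ht0]
  apply Real.exp_le_exp.2
  apply mul_le_mul_of_nonneg_left _ (Real.log_nonneg ht1)
  have e1 : (1 / 2 + y - 1 / 2) = y := by ring
  rw [e1]
  have h4 : (A + κ) * (1 - y / (B + κ)) ≤ (A - y / (2 * (1 + d))) + κ * (5 / B + 1) := by
    have hBκ : 0 < B + κ := by linarith
    have e2 : y / (2 * (1 + d)) = A * (y / B) := by
      rw [hB]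
      field_simp
    have e3 : y / B - y / (B + κ) ≤ κ * (10 / (B * B)) := by
      have : y / B - y / (B + κ) = κ * (y / (B * (B + κ))) := by
        field_simp
        ring
      rw [this]
      apply mul_le_mul_of_nonneg_left _ hκ0.le
      apply div_le_div₀ (by norm_num) (by linarith) (by positivity)
      apply mul_le_mul_of_nonneg_left _ hB0.le
      linarith
    have e4 : A * (10 / (B * B)) ≤ 5 / B := by
      have h2A : 2 * A ≤ B := by
        rw [hB]
        nlinarith
      have : A * (10 / (B * B)) = (2 * A) * (5 / (B * B)) := by ring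
      rw [this]
      calc (2 * A) * (5 / (B * B)) ≤ B * (5 / (B * B)) := by gcongr
        _ = 5 / B := by field_simp
    have e5 : 0 ≤ y / (B + κ) := by positivity
    rw [e2]
    have e6 : A * (y / B - y / (B + κ)) ≤ κ * (5 / B) := by
      calc A * (y / B - y / (B + κ)) ≤ A * (κ * (10 / (B * B))) := by gcongr
        _ = κ * (A * (10 / (B * B))) := by ring
        _ ≤ κ * (5 / B) := by gcongr
    nlinarith
  have h5 : max 0 ((A + κ) * (1 - y / (B + κ))) ≤ max 0 (A - y / (2 * (1 + d))) + κ * (5 / B + 1) := by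
    apply max_le
    · have := le_max_left 0 (A - y / (2 * (1 + d)))
      have h6 : 0 ≤ κ * (5 / B + 1) := by positivity
      linarith
    · have := le_max_right 0 (A - y / (2 * (1 + d)))
      linarith
  nlinarith

/-- the lower bound for sequences of windows (for `St_Y6`) -/
theorem u_lo (h2 : St_Y2) {B : ℝ} {t : ℕ → ℝ} (hB0 : 0 ≤ B) (ht : Tendsto t atTop atTop)
    (hN : UNoZ B t) {ε η : ℝ} (hε : 0 < ε) (hη : 0 < η) (R : ℝ) :
    ∀ᶠ j in atTop, ∀ s y : ℝ, |s| ≤ R → B + η ≤ y → y ≤ 9 →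
      Real.exp (-(Real.log (t j) * ε)) ≤ ‖riemannZeta (1 / 2 + y + (t j + s) * I)‖ := by
  set κ : ℝ := min ε (η / 2) with hκ
  have hκ0 : 0 < κ := lt_min hε (by positivity)
  obtain ⟨R1, hR1⟩ := h2 (B + κ) R κ (by linarith) hκ0
  filter_upwards [ht.eventually_ge_atTop (max R1 1), hN κ hκ0 R1] with j hj1 hj3 s y hs hy0 hy1
  have ht1 : 1 ≤ t j := (le_max_right _ _).trans hj1
  have ht0 : 0 < t j := by linarith
  have hre : (1 / 2 + (y : ℂ) + (t j + s) * I).re = 1 / 2 + y := by simp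
  have him : (1 / 2 + (y : ℂ) + (t j + s) * I).im = t j + s := by simp
  have h3 := (hR1 (t j) ((le_max_left _ _).trans hj1) hj3 (1 / 2 + (y : ℂ) + (t j + s) * I)
    (by rw [hre]; linarith [min_le_right ε (η / 2)]) (by rw [hre]; linarith)
    (by rw [him]; simpa using hs)).1
  refine le_trans ?_ h3
  rw [Real.rpow_def_of_pos ht0]
  apply Real.exp_le_exp.2
  have h4 := Real.log_nonneg ht1
  have h5 : κ ≤ ε := min_le_left _ _
  nlinarith

end Pool.Agent.Helper68.LQ
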