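import Pool.Agent.Helper68.LQ.Z3
import Pool.Agent.Helper68.JE.LhGr

/-!
`St_Z1`: the exponent of the zeta function on the critical line.
-/

set_option autoImplicit false
set_option maxHeartbeats 4000000

open Complex Filter Topology Set Metric
open Pool.Agent.H306R2 (Zt)
open Pool.Agent.Helper85.LG (Pg Pg_diffAt Pg_ne xi_eq Reg reg_abs zeta_two_sided)
open Pool.Agent.Helper85.DQ (Fx Fx_diff Fx_even Fx_conj ld_Pg xi_crude gauss_strip growth)
open Pool.Agent.Helper68.JE

namespace Pool.Agent.Helper68.LQ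

/-- the bound at large heights -/
lemma lh_large2 {δ η B : ℝ} (hδ : 0 < δ) (hδ1 : δ ≤ 5 / 8) (hη : 0 < η) (hB1 : 1 ≤ B)
    (h : ∀ y : ℝ, 1 ≤ y → ‖riemannZeta (1 / 2 + ((δ : ℂ) + y * I))‖ ≤ B * y ^ η) :
    ∃ T D : ℝ, 1 ≤ T ∧ 0 ≤ D ∧ ∀ t : ℝ, T ≤ t →
      ‖riemannZeta (1 / 2 + t * I)‖ ≤ D * Real.exp ((δ / 2 + 3 * η) * Real.log t) := by
  obtain ⟨T1, hT1⟩ : ∃ T1 : ℝ, T1 = 2 := ⟨2, rfl⟩
  obtain ⟨C, hC1, hC⟩ := ld_Pg
  set H : ℝ := 40 / η + 1 with hH
  have hH1 : 1 ≤ H := by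
    rw [hH]
    have : 0 < 40 / η := by positivity
    linarith
  obtain ⟨T2, hT2, hPg⟩ := hC 2 H
  obtain ⟨T3, hT3, hcr⟩ := xi_crude (y0 := 3 / 4) (ρ1 := 1) (by norm_num) (reg_abs (by norm_num)) (by norm_num)
    (Y := 1) (by norm_num) le_rfl H
  set D : ℝ := 3 * B * Real.exp (C * (1 + H)) with hD
  have hD0 : 0 < D := by positivity
  refine ⟨max (max T1 T2) (max T3 (2 * H + 2 * T1 + 3)), D, hT2.trans ((le_max_right _ _).trans (le_max_left _ _)),
    hD0.le, fun t hT => ?_⟩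
  have ht1 : T1 ≤ t := ((le_max_left _ _).trans (le_max_left _ _)).trans hT
  have ht2 : T2 ≤ t := ((le_max_right _ _).trans (le_max_left _ _)).trans hT
  have ht3 : T3 ≤ t := ((le_max_left _ _).trans (le_max_right _ _)).trans hT
  have ht4 : 2 * H + 2 * T1 + 3 ≤ t := ((le_max_right _ _).trans (le_max_right _ _)).trans hT
  have ht9 : 9 ≤ t := by linarith
  have ht0 : 0 < t := by linarith
  set L : ℝ := 1 / 2 * Real.log t with hL
  have hlog : 1 ≤ Real.log t := by
    rw [Real.le_log_iff_exp_le ht0]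
    have := Real.exp_one_lt_d9
    linarith
  have hL0 : 0 < L := by rw [hL]; linarith
  have hexpL : Real.exp (2 * L) = t := by
    rw [hL, show 2 * (1 / 2 * Real.log t) = Real.log t by ring, Real.exp_log ht0]
  set P : ℝ := ‖Pg (1 / 2 + t * I)‖ with hP
  have hP0 : 0 < P := norm_pos_iff.2 (Pg_ne (by simp))
  -- the gamma factor
  have hpg : ∀ z : ℂ, 1 / 2 ≤ z.re → z.re ≤ 2 → |z.im - t| ≤ H →
      ‖Pg z‖ ≤ P * Real.exp (L * (z.re - 1 / 2) + C * ‖z - (1 / 2 + t * I)‖) := by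
    intro z h1 h2 h3
    have hz1 : (1 / 2 + t * I : ℂ) ∈ {z : ℂ | 1 / 2 ≤ z.re ∧ z.re ≤ 2 ∧ |z.im - t| ≤ H} := by
      refine ⟨?_, ?_, ?_⟩
      · simp
      · simp; norm_num
      · simp; linarith
    have hs := (conv_box t H).segment_subset hz1 (show z ∈ _ from ⟨h1, h2, h3⟩)
    have hg := growth (g := Pg) (z1 := 1 / 2 + t * I) (z2 := z) (L := L) (M := C)
      (fun z hz => Pg_diffAt (by linarith [(hs hz).1]))
      (fun z hz => Pg_ne (by linarith [(hs hz).1]))
      (fun z hz => (hPg t z ht2 (by linarith [(hs hz).1]) (hs hz).2.1 (hs hz).2.2).1)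
    have e : (1 / 2 + t * I : ℂ).re = 1 / 2 := by simp
    rw [e] at hg
    exact hg
  set V : ℝ := P * (3 * B * t * Real.exp (4 * η * L)) * Real.exp (δ * L + C * (1 + H)) with hV
  have hV0 : 0 < V := by positivity
  have hFx : ∀ w : ℂ, -(1 / 2) < w.re → ‖Fx w‖ = ‖Zt (1 / 2 + w)‖ * ‖Pg (1 / 2 + w)‖ := by
    intro w hw
    unfold Fx
    rw [xi_eq (by simp; linarith), norm_mul]
  -- the sides
  have hside0 : ∀ y : ℝ, |y - t| ≤ H → ‖Fx ((δ : ℂ) + y * I)‖ ≤ V := by
    intro y hy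
    have hyt := abs_le.1 hy
    have hy0 : 0 < y := by linarith [hyt.1]
    have hy1 : T1 ≤ |y| := by rw [abs_of_pos hy0]; linarith [hyt.1]
    have hy2 : |y| ≤ 2 * t := by rw [abs_of_pos hy0]; linarith [hyt.2]
    have hlogy : Real.log |y| ≤ 4 * L := by
      have h1 : |y| ≤ t ^ 2 := by nlinarith
      have h2 := Real.log_le_log (by linarith) h1
      rw [Real.log_pow] at h2
      push_cast at h2
      rw [hL]
      linarith
    rw [hFx _ (by simp; linarith)]
    have hZ : ‖Zt (1 / 2 + ((δ : ℂ) + y * I))‖ ≤ 3 * B * t * Real.exp (4 * η * L) := by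
      rw [abs_of_pos hy0] at hlogy hy1 hy2
      have h1 := h y (by linarith)
      have hne : (1 / 2 + ((δ : ℂ) + y * I)) ≠ 1 := by
        intro h0
        have := congrArg im h0
        simp at this
        linarith
      rw [← Pool.Agent.H306R2.zeta_eq_pos (by simp; linarith) hne, norm_mul]
      have e : (1 / 2 + ((δ : ℂ) + y * I) - 1 : ℂ) = ((δ - 1 / 2 : ℝ) : ℂ) + y * I := by
        push_cast; ring
      have h2 : ‖(1 / 2 + ((δ : ℂ) + y * I) - 1 : ℂ)‖ ≤ 3 * t := by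
        rw [e]
        refine (norm_add_le _ _).trans ?_
        rw [norm_mul, norm_I, mul_one, Complex.norm_real, Complex.norm_real, Real.norm_eq_abs,
          Real.norm_eq_abs, abs_of_pos hy0]
        have : |δ - 1 / 2| ≤ 1 / 2 := by rw [abs_le]; constructor <;> linarith
        linarith
      have h4 : y ^ η ≤ Real.exp (4 * η * L) := by
        rw [Real.rpow_def_of_pos hy0]
        exact Real.exp_le_exp.2 (by nlinarith)
      calc ‖(1 / 2 + ((δ : ℂ) + y * I) - 1 : ℂ)‖ * ‖riemannZeta (1 / 2 + ((δ : ℂ) + y * I))‖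
          ≤ (3 * t) * (B * Real.exp (4 * η * L)) :=
            mul_le_mul h2 (h1.trans (by gcongr)) (norm_nonneg _) (by positivity)
        _ = _ := by ring
    have hG : ‖Pg (1 / 2 + ((δ : ℂ) + y * I))‖ ≤ P * Real.exp (δ * L + C * (1 + H)) := by
      refine (hpg _ (by simp; linarith) (by simp; linarith) (by simpa using hy)).trans ?_
      refine mul_le_mul_of_nonneg_left (Real.exp_le_exp.2 ?_) hP0.le
      have e1 : (1 / 2 + ((δ : ℂ) + y * I) - (1 / 2 + t * I) : ℂ) = (δ : ℂ) + ((y - t : ℝ) : ℂ) * I := by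
        push_cast; ring
      have e2 : ‖(δ : ℂ) + ((y - t : ℝ) : ℂ) * I‖ ≤ 1 + H := by
        refine (norm_add_le _ _).trans ?_
        rw [norm_mul, norm_I, mul_one, Complex.norm_real, Complex.norm_real, Real.norm_eq_abs,
          Real.norm_eq_abs, abs_of_pos hδ]
        linarith
      have e3 : (1 / 2 + ((δ : ℂ) + y * I) : ℂ).re - 1 / 2 = δ := by simp
      rw [e1, e3]
      have e4 : C * ‖(δ : ℂ) + ((y - t : ℝ) : ℂ) * I‖ ≤ C * (1 + H) :=
        mul_le_mul_of_nonneg_left e2 (by linarith)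
      linarith
    calc ‖Zt (1 / 2 + ((δ : ℂ) + y * I))‖ * ‖Pg (1 / 2 + ((δ : ℂ) + y * I))‖
        ≤ (3 * B * t * Real.exp (4 * η * L)) * (P * Real.exp (δ * L + C * (1 + H))) :=
          mul_le_mul hZ hG (norm_nonneg _) (by positivity)
      _ = V := by rw [hV]; ring
  have hside : ∀ w : ℂ, |w.re| = δ → |w.im - t| ≤ H → ‖Fx w‖ ≤ V := by
    intro w h1 h2
    rcases le_total 0 w.re with h3 | h3
    · rw [abs_of_nonneg h3] at h1
      have h4 := hside0 w.im h2
      rw [← h1, Complex.re_add_im] at h4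
      exact h4
    · rw [abs_of_nonpos h3] at h1
      have h4 := hside0 w.im h2
      have h5 : ((δ : ℂ) + w.im * I) = -(starRingEnd ℂ) w := by
        apply Complex.ext
        · simp [h1]
        · simp
      rw [h5, Fx_even, Fx_conj, RCLike.norm_conj] at h4
      exact h4
  have htop : ∀ w : ℂ, |w.re| ≤ δ → |w.im - t| = H → ‖Fx w‖ ≤ V * Real.exp (20 * L) := by
    intro w h1 h2
    refine (hcr t w ht3 (by linarith) h2.le).trans ?_
    rw [hFx _ (by simp; norm_num)]
    have e0 : (1 / 2 + (((1 : ℝ) : ℂ) + t * I) : ℂ).re = 3 / 2 := by simp; norm_num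
    have hZ : ‖Zt (1 / 2 + (((1 : ℝ) : ℂ) + t * I))‖ ≤ 12 * t ^ 2 := by
      refine (Pool.Agent.H306R2.Zt_norm_le (by rw [e0]; norm_num)).trans ?_
      have h3 : ‖(1 / 2 + (((1 : ℝ) : ℂ) + t * I) : ℂ)‖ ≤ 3 / 2 + t := by
        have e : (1 / 2 + (((1 : ℝ) : ℂ) + t * I) : ℂ) = ((3 / 2 : ℝ) : ℂ) + t * I := by
          push_cast; ring
        rw [e]
        refine (norm_add_le _ _).trans ?_
        rw [norm_mul, norm_I, mul_one, Complex.norm_real, Complex.norm_real, Real.norm_eq_abs,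
          Real.norm_eq_abs, abs_of_pos ht0, abs_of_pos (by norm_num : (0 : ℝ) < 3 / 2)]
      have h4 : (‖(1 / 2 + (((1 : ℝ) : ℂ) + t * I) : ℂ)‖ + 1) ^ 2 ≤ (2 * t) ^ 2 :=
        pow_le_pow_left₀ (by positivity) (by linarith) 2
      linarith
    have hG : ‖Pg (1 / 2 + (((1 : ℝ) : ℂ) + t * I))‖ ≤ P * Real.exp (L + C) := by
      refine (hpg _ (by rw [e0]; norm_num) (by rw [e0]; norm_num) (by simp; linarith)).trans ?_
      refine mul_le_mul_of_nonneg_left (Real.exp_le_exp.2 ?_) hP0.le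
      have e1 : (1 / 2 + (((1 : ℝ) : ℂ) + t * I) - (1 / 2 + t * I) : ℂ) = 1 := by push_cast; ring
      rw [e0, e1, norm_one]
      linarith
    have e13 : ((1 : ℝ) + 12) = 13 := by norm_num
    have h4t : 4 * t ≤ Real.exp (4 * L) := by
      have : Real.exp (4 * L) = t * t := by
        have e : 4 * L = 2 * L + 2 * L := by ring
        rw [e, Real.exp_add, hexpL]
      rw [this]
      nlinarith
    have hBt : 3 * t * Real.exp (C) ≤ 3 * B * t * Real.exp (4 * η * L) * Real.exp (δ * L + C * (1 + H)) := by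
      have h5 : 1 ≤ Real.exp (4 * η * L) := Real.one_le_exp (by positivity)
      have h6 : Real.exp C ≤ Real.exp (δ * L + C * (1 + H)) := by
        apply Real.exp_le_exp.2
        have : 0 < δ * L := by positivity
        nlinarith
      calc 3 * t * Real.exp C = 3 * 1 * t * 1 * Real.exp C := by ring
        _ ≤ 3 * B * t * Real.exp (4 * η * L) * Real.exp (δ * L + C * (1 + H)) := by gcongr
    calc Real.exp ((1 + 12) * L) * (‖Zt (1 / 2 + (((1 : ℝ) : ℂ) + t * I))‖ *
          ‖Pg (1 / 2 + (((1 : ℝ) : ℂ) + t * I))‖)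
        ≤ Real.exp ((1 + 12) * L) * ((12 * t ^ 2) * (P * Real.exp (L + C))) := by gcongr
      _ = P * (3 * t * Real.exp C) * (4 * t) * Real.exp (14 * L) := by
          have : Real.exp (14 * L) = Real.exp ((1 + 12) * L) * Real.exp L := by
            rw [← Real.exp_add]; congr 1; ring
          rw [this, Real.exp_add L C]; ring
      _ ≤ P * (3 * B * t * Real.exp (4 * η * L) * Real.exp (δ * L + C * (1 + H))) *
          Real.exp (4 * L) * Real.exp (14 * L) := by gcongr
      _ = V * Real.exp (18 * L) := by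
          have : Real.exp (18 * L) = Real.exp (4 * L) * Real.exp (14 * L) := by
            rw [← Real.exp_add]; congr 1; ring
          rw [this, hV]; ring
      _ ≤ V * Real.exp (20 * L) := by
          refine mul_le_mul_of_nonneg_left (Real.exp_le_exp.2 ?_) hV0.le
          linarith
  have hres := gauss_strip Fx_diff hδ hH1 hV0.le (by positivity : 0 ≤ 20 * L) hside htop (t * I)
    (by simp; exact hδ.le) (by simp)
  rw [hFx _ (by simp)] at hres
  have hK : 20 * L / H ^ 2 * (δ ^ 2 + 1) ≤ η * L := by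
    have h6 : δ ^ 2 + 1 ≤ 2 := by nlinarith
    have h7 : 40 / η ≤ H ^ 2 := by
      rw [hH]
      have : 0 < 40 / η := by positivity
      nlinarith
    rw [div_le_iff₀ hη] at h7
    rw [div_mul_eq_mul_div, div_le_iff₀ (by positivity)]
    have h8 : 20 * L * (δ ^ 2 + 1) ≤ 20 * L * 2 := by gcongr
    nlinarith
  have hZfin : ‖Zt (1 / 2 + t * I)‖ ≤ D * t * Real.exp ((δ / 2 + 3 * η) * Real.log t) := by
    have h1 : ‖Zt (1 / 2 + t * I)‖ * P ≤ (D * t * Real.exp ((δ / 2 + 3 * η) * Real.log t)) * P := by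
      refine hres.trans ?_
      calc V * Real.exp (20 * L / H ^ 2 * (δ ^ 2 + 1)) ≤ V * Real.exp (η * L) := by gcongr
        _ = D * t * (Real.exp (4 * η * L) * Real.exp (δ * L) * Real.exp (η * L)) * P := by
            rw [hV, hD, Real.exp_add]; ring
        _ ≤ D * t * Real.exp ((δ / 2 + 3 * η) * Real.log t) * P := by
            have h2 : Real.exp (4 * η * L) * Real.exp (δ * L) * Real.exp (η * L) ≤
                Real.exp ((δ / 2 + 3 * η) * Real.log t) := by
              rw [← Real.exp_add, ← Real.exp_add]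
              apply Real.exp_le_exp.2
              have h3 : Real.log t = 2 * L := by rw [hL]; ring
              rw [h3]
              have : 0 < η * L := by positivity
              linarith
            gcongr
    exact le_of_mul_le_mul_right h1 hP0
  have hne1 : (1 / 2 + t * I : ℂ) ≠ 1 := by
    intro h0
    have := congrArg re h0
    simp at this
  rw [← Pool.Agent.H306R2.zeta_eq_pos (s := 1 / 2 + t * I) (by simp) hne1, norm_mul] at hZfin
  have ht : t ≤ ‖(1 / 2 + t * I - 1 : ℂ)‖ := by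
    have := Complex.abs_im_le_norm (1 / 2 + t * I - 1 : ℂ)
    have e : (1 / 2 + t * I - 1 : ℂ).im = t := by simp
    rw [e, abs_of_pos ht0] at this
    exact this
  have hfin : t * ‖riemannZeta (1 / 2 + t * I)‖ ≤ t * (D * Real.exp ((δ / 2 + 3 * η) * Real.log t)) := by
    calc t * ‖riemannZeta (1 / 2 + t * I)‖ ≤ ‖(1 / 2 + t * I - 1 : ℂ)‖ * ‖riemannZeta (1 / 2 + t * I)‖ := by
          gcongr
      _ ≤ _ := hZfin
      _ = _ := by ring
  exact le_of_mul_le_mul_left hfin ht0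



open Pool.Agent.Helper75.JE Pool.Agent.Helper75.LQ

/-- bounded heights -/
lemma bdd_heights (T : ℝ) (hT1 : 1 ≤ T) : ∃ M : ℝ, 0 ≤ M ∧ ∀ t ∈ Icc 1 T, ‖riemannZeta (1 / 2 + t * I)‖ ≤ M := by
  have hcont : ContinuousOn (fun t : ℝ => ‖riemannZeta (1 / 2 + t * I)‖) (Icc 1 T) := by
    intro t ht
    apply ContinuousAt.continuousWithinAt
    have h1 : DifferentiableAt ℂ riemannZeta (1 / 2 + t * I) := by
      apply differentiableAt_riemannZeta
      intro h0
      have := congrArg re h0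
      simp at this
    have h2 : ContinuousAt (fun t : ℝ => (1 / 2 + t * I : ℂ)) t := by fun_prop
    exact (ContinuousAt.comp (f := fun t : ℝ => (1 / 2 + t * I : ℂ)) h1.continuousAt h2).norm
  obtain ⟨M, hM⟩ := isCompact_Icc.exists_bound_of_continuousOn hcont
  have hM' : ∀ t ∈ Icc 1 T, ‖riemannZeta (1 / 2 + t * I)‖ ≤ M := by
    intro t ht
    have := hM t ht
    rwa [norm_norm] at this
  exact ⟨M, (norm_nonneg _).trans (hM' 1 ⟨le_rfl, hT1⟩), hM'⟩

/-- a bound at large heights is a bound -/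
lemma glue {a D T : ℝ} (ha : 0 ≤ a) (hD : 0 ≤ D)
    (h : ∀ t : ℝ, T ≤ t → 1 ≤ t → ‖riemannZeta (1 / 2 + t * I)‖ ≤ D * t ^ a) :
    ∃ C : ℝ, ∀ t : ℝ, 1 ≤ t → ‖riemannZeta (1 / 2 + t * I)‖ ≤ C * t ^ a := by
  obtain ⟨M, hM0, hM⟩ := bdd_heights (max T 1) (le_max_right _ _)
  refine ⟨max D M, fun t ht => ?_⟩
  have hpow : 1 ≤ t ^ a := Real.one_le_rpow ht ha
  rcases le_total (max T 1) t with h1 | h1
  · refine (h t ((le_max_left _ _).trans h1) ht).trans ?_
    gcongr
    exact le_max_left _ _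
  · refine (hM t ⟨ht, h1⟩).trans ?_
    calc M = M * 1 := (mul_one _).symm
      _ ≤ max D M * t ^ a := mul_le_mul (le_max_right _ _) hpow zero_le_one (hM0.trans (le_max_right _ _))

/-- `ζ(1/2 + it) = O(t^(1/2))` -/
lemma half_bound : ∃ C : ℝ, ∀ t : ℝ, 1 ≤ t → ‖riemannZeta (1 / 2 + t * I)‖ ≤ C * t ^ (1 / 2 : ℝ) := by
  obtain ⟨B, hB1, hB⟩ := zeta_two_sided (σ := 9 / 8) (by norm_num)
  obtain ⟨T, D, hT1, hD0, hT⟩ := lh_large2 (δ := 5 / 8) (η := 1 / 16) (B := B) (by norm_num) (by norm_num)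
    (by norm_num) hB1 (fun y hy => by
      refine (hB (1 / 2 + (((5 / 8 : ℝ) : ℂ) + y * I)) ?_).1.trans ?_
      · simp; norm_num
      · exact le_mul_of_one_le_right (by linarith) (Real.one_le_rpow hy (by norm_num)))
  refine glue (a := 1 / 2) (D := D) (T := T) (by norm_num) hD0 (fun t ht ht1 => (hT t ht).trans ?_)
  have ht0 : 0 < t := by linarith
  rw [Real.rpow_def_of_pos ht0]
  have hl := Real.log_nonneg ht1
  apply mul_le_mul_of_nonneg_left _ hD0
  apply Real.exp_le_exp.2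
  nlinarith

theorem st_Z1 : St_Z1 := by
  intro hn
  set E : Set ℝ := {a : ℝ | 0 ≤ a ∧ ∃ C : ℝ, ∀ t : ℝ, 1 ≤ t → ‖riemannZeta (1 / 2 + t * I)‖ ≤ C * t ^ a} with hE
  have hbd : BddBelow E := ⟨0, fun a ha => ha.1⟩
  have hhalf : (1 / 2 : ℝ) ∈ E := ⟨by norm_num, half_bound⟩
  have hne : E.Nonempty := ⟨_, hhalf⟩
  set A : ℝ := sInf E with hA
  have hA1 : A ≤ 1 / 2 := csInf_le hbd hhalf
  have hA0' : 0 ≤ A := le_csInf hne (fun a ha => ha.1)
  have hup : UpA A := by
    intro ε hε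
    obtain ⟨a, ha, haA⟩ := exists_lt_of_csInf_lt hne (show sInf E < A + ε by rw [← hA]; linarith)
    obtain ⟨ha0, C, hC⟩ := ha
    refine ⟨|C|, fun t ht => (hC t ht).trans ?_⟩
    have h1 : t ^ a ≤ t ^ (A + ε) := Real.rpow_le_rpow_of_exponent_le ht haA.le
    have h2 : 0 ≤ t ^ a := by positivity
    calc C * t ^ a ≤ |C| * t ^ a := by gcongr; exact le_abs_self _
      _ ≤ |C| * t ^ (A + ε) := by gcongr
  have hA0 : 0 < A := by
    by_contra h0
    have h1 : A = 0 := le_antisymm (not_lt.1 h0) hA0'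
    apply hn
    intro ε hε
    obtain ⟨C, hC⟩ := hup ε hε
    refine ⟨C, fun t ht => ?_⟩
    have := hC t ht
    rwa [h1, zero_add] at this
  refine ⟨A, hA0, hA1, hup, fun ε hε T => ?_⟩
  by_contra hcon
  push Not at hcon
  set b : ℝ := max (A - ε) 0 with hb
  have hb0 : 0 ≤ b := le_max_right _ _
  have hbA : b < A := max_lt (by linarith) hA0
  have hbE : b ∈ E := by
    refine ⟨hb0, glue (D := 1) (T := T) hb0 zero_le_one (fun t ht ht1 => ?_)⟩
    rw [one_mul]
    exact (hcon t ht).le.trans (Real.rpow_le_rpow_of_exponent_le ht1 (le_max_left _ _))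
  exact absurd (csInf_le hbd hbE) (not_le.2 hbA)

end Pool.Agent.Helper68.LQ
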