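import Pool.Agent.Helper75.LQ.Zs
import Pool.Agent.Helper68.JE.RegFew

/-!
`St_Z3`: to the right of the zeros the zeta function is `t^(±ε)`.
-/

set_option autoImplicit false
set_option maxHeartbeats 4000000

open Complex Filter Topology Set Metric
open Pool.Agent.H306R2 (Zt)
open Pool.Agent.Helper85.LG (zeta_two_sided)
open Pool.Agent.Helper75.JE Pool.Agent.Helper75.LQ Pool.Agent.Helper68.JE

namespace Pool.Agent.Helper68.LQ

/-- a power of a large number beats a constant -/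
lemma big_rpow (B : ℝ) {ε : ℝ} (hε : 0 < ε) : ∃ T : ℝ, 1 ≤ T ∧ ∀ t : ℝ, T ≤ t → B ≤ t ^ ε := by
  have h := tendsto_rpow_atTop hε
  obtain ⟨T, hT⟩ := eventually_atTop.1 (h.eventually (eventually_ge_atTop B))
  exact ⟨max T 1, le_max_right _ _, fun t ht => hT t ((le_max_left _ _).trans ht)⟩

lemma z3_bd {B t ε : ℝ} {z : ℂ} (ht : 1 ≤ t) (hB : B ≤ t ^ ε)
    (h : ‖riemannZeta z‖ ≤ B ∧ 1 ≤ B * ‖riemannZeta z‖) :
    t ^ (-ε) ≤ ‖riemannZeta z‖ ∧ ‖riemannZeta z‖ ≤ t ^ ε := by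
  have ht0 : 0 < t := by linarith
  have hp : 0 < t ^ ε := by positivity
  refine ⟨?_, h.1.trans hB⟩
  rw [Real.rpow_neg ht0.le, inv_le_iff_one_le_mul₀ hp]
  have := mul_le_mul_of_nonneg_right hB (norm_nonneg (riemannZeta z))
  nlinarith [h.2]

theorem st_Z3 : St_Z3 := by
  intro θ hθ h σ hσ ε hε
  rcases le_or_gt 1 θ with h1 | h1
  · obtain ⟨B, hB1, hB⟩ := zeta_two_sided (σ := σ) (by linarith)
    obtain ⟨T, hT1, hT⟩ := big_rpow B hε
    exact ⟨T, fun s hs _ ht => z3_bd (hT1.trans ht) (hT _ ht) (hB s hs)⟩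
  set σ' : ℝ := min σ 1 with hσ'
  have hσ1 : σ' ≤ 1 := min_le_right _ _
  have hσ2 : σ' ≤ σ := min_le_left _ _
  have hσ3 : θ < σ' := lt_min hσ h1
  clear_value σ'
  obtain ⟨T0, hT0⟩ := h ((σ' - θ) / 2) (by linarith)
  obtain ⟨T, hT2, hT⟩ := local_bounds (θ := θ + (σ' - θ) / 2) (σ := σ') (T0 := T0) (by linarith)
    (by linarith) hσ1 (Zt_ne (by linarith) hT0) (show 0 < ε / 2 by positivity)
  obtain ⟨B, hB1, hB⟩ := zeta_two_sided (σ := 2) (by norm_num)
  obtain ⟨T3, hT31, hT3⟩ := big_rpow (2 * B) (show 0 < ε / 2 by positivity)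
  refine ⟨max T T3, fun s hs _ ht => ?_⟩
  have htT : T ≤ s.im := (le_max_left _ _).trans ht
  have htT3 : T3 ≤ s.im := (le_max_right _ _).trans ht
  have ht1 : 1 ≤ s.im := hT31.trans htT3
  have ht0 : 0 < s.im := by linarith
  have hBp : 2 * B ≤ s.im ^ (ε / 2) := hT3 _ htT3
  have hpp : s.im ^ (ε / 2) * s.im ^ (ε / 2) = s.im ^ ε := by
    rw [← Real.rpow_add ht0]; congr 1; ring
  have hp0 : 0 < s.im ^ (ε / 2) := by positivity
  have hs' : σ' ≤ s.re := hσ2.trans hs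
  rcases le_total 2 s.re with h2 | h2
  · refine z3_bd ht1 ?_ (hB s h2)
    rw [← hpp]
    nlinarith
  have e : ((s.re : ℂ) + s.im * I) = s := Complex.re_add_im s
  obtain ⟨h4, h4', -, -⟩ := hT s.im (by rw [abs_of_pos ht0]; exact htT) s.re hs' h2
  obtain ⟨h5, h5'⟩ := Pool.Agent.Helper39.LG.Zt_two hB1 hB s.im
  rw [e, abs_of_pos ht0] at h4 h4'
  rw [abs_of_pos ht0] at h5 h5'
  have hne1 : s ≠ 1 := by
    intro h0
    rw [h0] at ht0
    simp at ht0
  rw [← Pool.Agent.H306R2.zeta_eq_pos (s := s) (by linarith) hne1, norm_mul] at h4 h4'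
  have h6 : s.im ≤ ‖s - 1‖ := by
    have := Complex.abs_im_le_norm (s - 1)
    have e : (s - 1).im = s.im := by simp
    rw [e, abs_of_pos ht0] at this
    exact this
  have h6' : ‖s - 1‖ ≤ 2 * s.im := by
    refine (Complex.norm_le_abs_re_add_abs_im _).trans ?_
    have e1 : (s - 1).im = s.im := by simp
    have e2 : (s - 1).re = s.re - 1 := by simp
    rw [e1, e2, abs_of_pos ht0]
    have : |s.re - 1| ≤ 1 := by rw [abs_le]; constructor <;> linarith
    linarith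
  have h7 : Real.exp (ε / 2 * Real.log s.im) = s.im ^ (ε / 2) := by
    rw [Real.rpow_def_of_pos ht0]; congr 1; ring
  rw [h7] at h4 h4'
  have hz := norm_nonneg (riemannZeta s)
  constructor
  · -- lower bound
    have h8 : s.im ≤ s.im * ((2 * B) * s.im ^ (ε / 2) * ‖riemannZeta s‖) := by
      calc s.im ≤ B * ‖Zt (2 + s.im * I)‖ := h5'
        _ ≤ B * (‖s - 1‖ * ‖riemannZeta s‖ * s.im ^ (ε / 2)) := by gcongr
        _ ≤ B * ((2 * s.im) * ‖riemannZeta s‖ * s.im ^ (ε / 2)) := by gcongr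
        _ = _ := by ring
    have h9 : 1 ≤ (2 * B) * s.im ^ (ε / 2) * ‖riemannZeta s‖ :=
      le_of_mul_le_mul_left (by rw [mul_one]; exact h8) ht0
    rw [Real.rpow_neg ht0.le, inv_le_iff_one_le_mul₀ (by positivity), ← hpp]
    calc 1 ≤ (2 * B) * s.im ^ (ε / 2) * ‖riemannZeta s‖ := h9
      _ ≤ s.im ^ (ε / 2) * s.im ^ (ε / 2) * ‖riemannZeta s‖ := by gcongr
      _ = _ := by ring
  · have h8 : s.im * ‖riemannZeta s‖ ≤ s.im * ((2 * B) * s.im ^ (ε / 2)) := by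
      calc s.im * ‖riemannZeta s‖ ≤ ‖s - 1‖ * ‖riemannZeta s‖ := by gcongr
        _ ≤ ‖Zt (2 + s.im * I)‖ * s.im ^ (ε / 2) := h4
        _ ≤ (B * (1 + s.im)) * s.im ^ (ε / 2) := by gcongr
        _ ≤ (B * (s.im + s.im)) * s.im ^ (ε / 2) := by gcongr
        _ = _ := by ring
    refine (le_of_mul_le_mul_left h8 ht0).trans ?_
    rw [← hpp]
    gcongr

end Pool.Agent.Helper68.LQ
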