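import Pool.Agent.Helper68.LQ.Z3
import Pool.Agent.Helper68.JE.LhGr

/-!
`St_Z4`: convexity.
-/

set_option autoImplicit false
set_option maxHeartbeats 4000000

open Complex Filter Topology Set Metric
open Pool.Agent.H306R2 (Zt)
open Pool.Agent.Helper85.LG (zeta_two_sided)
open Pool.Agent.Helper75.JE Pool.Agent.Helper75.LQ Pool.Agent.Helper68.JE

namespace Pool.Agent.Helper68.LQ

/-- crude bound for the zeta function -/
lemma zeta_crude {z : ℂ} {t : ℝ} (ht : 4 ≤ t) (h1 : 1 / 2 ≤ z.re) (h2 : z.re ≤ 3) (h3 : 1 ≤ z.im)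
    (h4 : z.im ≤ 2 * t) : ‖riemannZeta z‖ ≤ Real.exp (5 * Real.log t) := by
  have ht0 : 0 < t := by linarith
  have hne : z ≠ 1 := by
    intro h0
    have := congrArg im h0
    simp at this
    linarith
  have h4' : ‖riemannZeta z‖ ≤ ‖Zt z‖ := by
    rw [← Pool.Agent.H306R2.zeta_eq_pos (by linarith) hne, norm_mul]
    apply le_mul_of_one_le_left (norm_nonneg _)
    have h5 := Complex.abs_im_le_norm (z - 1 : ℂ)
    have h6 : (z - 1 : ℂ).im = z.im := by simp
    rw [h6] at h5
    have h7 := le_abs_self z.im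
    linarith
  have h5 := Pool.Agent.H306R2.Zt_norm_le (s := z) h1
  have h6 : ‖z‖ ≤ 3 + 2 * t := by
    refine (Complex.norm_le_abs_re_add_abs_im _).trans ?_
    rw [abs_of_pos (by linarith : 0 < z.re), abs_of_pos (by linarith : 0 < z.im)]
    linarith
  have h7 : (‖z‖ + 1) ^ 2 ≤ (3 * t) ^ 2 :=
    pow_le_pow_left₀ (by positivity) (by linarith) 2
  have h8 : Real.exp (5 * Real.log t) = t ^ 5 := by
    have : (5 * Real.log t) = ((5 : ℕ) : ℝ) * Real.log t := by norm_num
    rw [this, Real.exp_nat_mul, Real.exp_log ht0]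
  have h9 : 27 * t ^ 2 ≤ t ^ 5 := by
    have : (27 : ℝ) ≤ t ^ 3 := by
      calc (27 : ℝ) ≤ 4 ^ 3 := by norm_num
        _ ≤ t ^ 3 := by gcongr
    calc 27 * t ^ 2 ≤ t ^ 3 * t ^ 2 := by gcongr
      _ = _ := by ring
  rw [h8]
  linarith

theorem st_Z4 : St_Z4 := by
  intro A hA0 hA1 hU hF ε hε
  set δ : ℝ := min (ε / 8) 1 with hδ
  have hδ0 : 0 < δ := lt_min (by positivity) one_pos
  have hδ1 : δ ≤ 1 := min_le_right _ _
  have hδ2 : δ ≤ ε / 8 := min_le_left _ _
  clear_value δ
  obtain ⟨T1, hT1⟩ := st_Z3 (1 / 2 + 2 * A) (by linarith)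
    (fun e he => by have := hF e he; rwa [← add_assoc] at this) (1 / 2 + 2 * A + δ) (by linarith)
    (ε / 8) (by positivity)
  obtain ⟨C0, hC0⟩ := hU (ε / 8) (by positivity)
  set C : ℝ := |C0| with hC
  have hC' : ∀ t : ℝ, 1 ≤ t → ‖riemannZeta (1 / 2 + t * I)‖ ≤ C * t ^ (A + ε / 8) := fun t ht =>
    (hC0 t ht).trans (mul_le_mul_of_nonneg_right (le_abs_self _) (by positivity))
  have hCn : 0 ≤ C := abs_nonneg _
  clear_value C
  set r : ℝ := A + δ / 2 with hr
  have hr0 : 0 < r := by rw [hr]; positivity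
  have hr1 : r ≤ 1 := by rw [hr]; linarith
  set c1 : ℝ := 2 ^ (A + ε / 8) with hc1
  have hc11 : 1 ≤ c1 := Real.one_le_rpow (by norm_num) (by positivity)
  set H : ℝ := 40 / ε + 1 with hH
  have hH1 : 1 ≤ H := by
    rw [hH]
    have : 0 < 40 / ε := by positivity
    linarith
  obtain ⟨T2, hT21, hT2⟩ := big_rpow ((C + 1) * c1) (show 0 < ε / 2 by positivity)
  refine ⟨max (max (T1 + H) T2) (2 * H + 4), fun s hs1 hs2 hsT => ?_⟩
  set t : ℝ := s.im with ht
  have h3 : 2 * H + 4 ≤ t := (le_max_right _ _).trans hsT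
  have hTt1 : T1 + H ≤ t := ((le_max_left _ _).trans (le_max_left _ _)).trans hsT
  have hTt2 : T2 ≤ t := ((le_max_right _ _).trans (le_max_left _ _)).trans hsT
  have ht4 : 4 ≤ t := by linarith
  have ht0 : 0 < t := by linarith
  have hlog : 1 ≤ Real.log t := by
    rw [Real.le_log_iff_exp_le ht0]
    have := Real.exp_one_lt_d9
    linarith
  set Lg : ℝ := Real.log t with hLg
  set V : ℝ := (C + 1) * c1 * Real.exp ((A + ε / 4) * Lg) with hV
  have hV0 : 0 < V := by rw [hV]; positivity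
  have hyy : ∀ y : ℝ, |y - t| ≤ H → 1 ≤ y ∧ y ≤ 2 * t ∧ T1 ≤ y := by
    intro y hy
    have hy' := abs_le.1 hy
    exact ⟨by linarith [hy'.1], by linarith [hy'.2], by linarith [hy'.1]⟩
  have hpow : ∀ y a : ℝ, |y - t| ≤ H → 0 ≤ a → a ≤ A + ε / 8 → y ^ a ≤ c1 * Real.exp (a * Lg) := by
    intro y a hy ha0 ha
    obtain ⟨k1, k2, k3⟩ := hyy y hy
    calc y ^ a ≤ (2 * t) ^ a := Real.rpow_le_rpow (by linarith) k2 ha0
      _ = 2 ^ a * t ^ a := Real.mul_rpow (by norm_num) ht0.le
      _ ≤ c1 * t ^ a := by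
          have := Real.rpow_le_rpow_of_exponent_le (x := 2) (by norm_num) ha
          exact mul_le_mul_of_nonneg_right this (by positivity)
      _ = _ := by rw [Real.rpow_def_of_pos ht0, mul_comm (Real.log t) a]
  set F : ℂ → ℂ := fun w => riemannZeta (1 / 2 + r + w) * cexp ((Lg / 2 : ℝ) * (r + w - t * I)) with hFd
  have hFn : ∀ w : ℂ, ‖F w‖ = ‖riemannZeta (1 / 2 + r + w)‖ * Real.exp (Lg / 2 * (r + w.re)) := by
    intro w
    rw [hFd]
    simp only
    rw [norm_mul, Complex.norm_exp]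
    congr 2
    rw [Complex.re_ofReal_mul]
    simp
  have hres := gauss_rect (F := F) (r := r) (H := H) (t := t) (V := V)
    (K := 5 * Lg) hr0 hH1 ?_ hV0.le (by positivity) ?_ ?_ (s - (1 / 2 + r)) ?_ ?_
  · rw [hFn] at hres
    have e : (1 / 2 + (r : ℂ) + (s - (1 / 2 + r)) : ℂ) = s := by ring
    have e2 : r + (s - (1 / 2 + (r : ℂ)) : ℂ).re = s.re - 1 / 2 := by
      simp
      ring
    rw [e, e2] at hres
    have hKK : 5 * Lg / H ^ 2 * (r ^ 2 + 1) ≤ ε / 4 * Lg := by
      have h7 : 40 / ε ≤ H ^ 2 := by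
        rw [hH]
        have : 0 < 40 / ε := by positivity
        nlinarith
      rw [div_le_iff₀ hε] at h7
      rw [div_mul_eq_mul_div, div_le_iff₀ (by positivity)]
      have h8 : r ^ 2 + 1 ≤ 2 := by nlinarith
      have h9 : 5 * Lg * (r ^ 2 + 1) ≤ 5 * Lg * 2 := by gcongr
      nlinarith
    have hres2 : ‖riemannZeta s‖ * Real.exp (Lg / 2 * (s.re - 1 / 2)) ≤
        (C + 1) * c1 * Real.exp ((A + ε / 2) * Lg) := by
      refine hres.trans ?_
      calc V * Real.exp (5 * Lg / H ^ 2 * (r ^ 2 + 1)) ≤ V * Real.exp (ε / 4 * Lg) := by gcongr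
        _ = (C + 1) * c1 * (Real.exp ((A + ε / 4) * Lg) * Real.exp (ε / 4 * Lg)) := by rw [hV]; ring
        _ = _ := by rw [← Real.exp_add]; congr 2; ring
    have hB : (C + 1) * c1 ≤ Real.exp (ε / 2 * Lg) := by
      have := hT2 t hTt2
      rwa [Real.rpow_def_of_pos ht0, mul_comm (Real.log t)] at this
    have hfin : ‖riemannZeta s‖ * Real.exp (Lg / 2 * (s.re - 1 / 2)) ≤
        t ^ (A - (s.re - 1 / 2) / 2 + ε) * Real.exp (Lg / 2 * (s.re - 1 / 2)) := by
      refine hres2.trans ?_
      rw [Real.rpow_def_of_pos ht0, ← Real.exp_add]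
      calc (C + 1) * c1 * Real.exp ((A + ε / 2) * Lg)
          ≤ Real.exp (ε / 2 * Lg) * Real.exp ((A + ε / 2) * Lg) := by gcongr
        _ = _ := by rw [← Real.exp_add]; congr 1; ring
    exact le_of_mul_le_mul_right hfin (Real.exp_pos _)
  · intro w hw1 hw2
    have hw3 := (hyy w.im hw2).1
    have h4 : DifferentiableAt ℂ riemannZeta (1 / 2 + r + w) := by
      apply differentiableAt_riemannZeta
      intro h0
      have := congrArg im h0
      simp at this
      linarith
    have h5 : DifferentiableAt ℂ (fun w : ℂ => riemannZeta (1 / 2 + r + w)) w :=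
      DifferentiableAt.comp (f := fun w : ℂ => 1 / 2 + (r : ℂ) + w) w h4 (by fun_prop)
    rw [hFd]
    exact h5.mul (by fun_prop)
  · intro w hw1 hw2
    obtain ⟨k1, k2, k3⟩ := hyy w.im hw2
    rw [hFn]
    rcases le_total 0 w.re with h4 | h4
    · rw [abs_of_nonneg h4] at hw1
      have hre : (1 / 2 + r + w : ℂ).re = 1 / 2 + 2 * A + δ := by
        simp [hw1, hr]; ring
      have him : (1 / 2 + r + w : ℂ).im = w.im := by simp
      have h5 := (hT1 (1 / 2 + r + w) hre.ge (by rw [hre]; linarith) (by rw [him]; exact k3)).2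
      rw [him] at h5
      have h6 := hpow w.im (ε / 8) hw2 (by positivity) (by linarith)
      calc ‖riemannZeta (1 / 2 + r + w)‖ * Real.exp (Lg / 2 * (r + w.re))
          ≤ (c1 * Real.exp (ε / 8 * Lg)) * Real.exp (Lg / 2 * (r + w.re)) := by
            gcongr
            exact h5.trans h6
        _ = c1 * Real.exp (ε / 8 * Lg + Lg / 2 * (r + r)) := by rw [hw1, mul_assoc, ← Real.exp_add]
        _ ≤ c1 * Real.exp ((A + ε / 4) * Lg) := by
            have : ε / 8 * Lg + Lg / 2 * (r + r) ≤ (A + ε / 4) * Lg := by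
              rw [hr]
              nlinarith
            gcongr
        _ ≤ V := by
            rw [hV]
            have : c1 ≤ (C + 1) * c1 := by nlinarith
            gcongr
    · rw [abs_of_nonpos h4] at hw1
      have hre : w.re = -r := by linarith
      have e : (1 / 2 + r + w : ℂ) = 1 / 2 + w.im * I := by
        apply Complex.ext
        · simp [hre]
        · simp
      rw [e, hre, add_neg_cancel, mul_zero, Real.exp_zero, mul_one]
      have h6 := hpow w.im (A + ε / 8) hw2 (by positivity) le_rfl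
      calc ‖riemannZeta (1 / 2 + w.im * I)‖ ≤ C * w.im ^ (A + ε / 8) := hC' w.im k1
        _ ≤ C * (c1 * Real.exp ((A + ε / 8) * Lg)) := by gcongr
        _ ≤ (C + 1) * (c1 * Real.exp ((A + ε / 4) * Lg)) := by
            gcongr
            · linarith
            · linarith
        _ = V := by rw [hV]; ring
  · intro w hw1 hw2
    obtain ⟨k1, k2, k3⟩ := hyy w.im hw2.le
    rw [hFn]
    have hwre := abs_le.1 hw1
    have hre : (1 / 2 + r + w : ℂ).re = 1 / 2 + r + w.re := by simp
    have him : (1 / 2 + r + w : ℂ).im = w.im := by simp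
    have h5 := zeta_crude (z := 1 / 2 + r + w) ht4 (by rw [hre]; linarith) (by rw [hre]; linarith)
      (by rw [him]; exact k1) (by rw [him]; exact k2)
    have h6 : Real.exp (Lg / 2 * (r + w.re)) ≤ V := by
      calc Real.exp (Lg / 2 * (r + w.re)) ≤ Real.exp ((A + ε / 4) * Lg) := by
            apply Real.exp_le_exp.2
            have h7 : Lg / 2 * (r + w.re) ≤ Lg / 2 * (r + r) := by
              have := hwre.2
              gcongr
            have h8 : Lg / 2 * (r + r) ≤ (A + ε / 4) * Lg := by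
              rw [hr]
              nlinarith
            linarith
        _ = 1 * 1 * Real.exp ((A + ε / 4) * Lg) := by ring
        _ ≤ V := by
            rw [hV]
            gcongr
            linarith
    calc ‖riemannZeta (1 / 2 + r + w)‖ * Real.exp (Lg / 2 * (r + w.re))
        ≤ Real.exp (5 * Lg) * V := by gcongr
      _ = _ := mul_comm _ _
  · have : (s - (1 / 2 + (r : ℂ)) : ℂ).re = s.re - (1 / 2 + r) := by simp
    rw [this, abs_le]
    constructor
    · linarith
    · rw [hr]; linarith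
  · have : (s - (1 / 2 + (r : ℂ)) : ℂ).im = t := by simp [ht]
    rw [this]
    simp

end Pool.Agent.Helper68.LQ
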